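import Pool.Agent.H297R2.LG.Defs
import Pool.Agent.H876R2.LG.EFX
import Pool.Agent.H503R2.LG.Ker
import Pool.Agent.H21LG.Zef0
import Pool.Agent.H629R2.LGGmv
import Pool.Agent.H851R2.LG.Sets

/-! Task 06 (MEAN) of helper297's blueprint: the Gaussian mean values of `|E|²` and `|E|² Zs`. -/

open Complex Filter Topology Set MeasureTheory

namespace LG

open SG (hh nn dd dl ord NZ)
open SP (RHs ZZ mu wt Mk Par Eb PS chi qq tt)

namespace MeanAux

theorem EE_norm_le (P : Par) (B0 : ℕ) (r : ℝ) (F : ℕ → ℝ) (T t : ℝ) :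
    ‖EE P B0 r F T t‖ ≤ ∑ q ∈ prs P B0 T, |ae P r F T q.1 * ae P r F T q.2| := by
  unfold EE
  refine (norm_sum_le _ _).trans (Finset.sum_le_sum fun q _ => ?_)
  rw [norm_mul, Complex.norm_real, Real.norm_eq_abs, mul_comm I, Complex.norm_exp_ofReal_mul_I,
    mul_one]

theorem EE_cont (P : Par) (B0 : ℕ) (r : ℝ) (F : ℕ → ℝ) (T : ℝ) :
    Continuous (EE P B0 r F T) := by
  unfold EE
  fun_prop

theorem Cn_le (P : Par) (B0 : ℕ) (r : ℝ) (F : ℕ → ℝ) (T : ℝ) (n : ℕ) :
    |Cn P B0 r F T n| ≤ (∑ q ∈ prs P B0 T, |ae P r F T q.1 * ae P r F T q.2|) ^ 2 := by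
  unfold Cn
  refine (Finset.abs_sum_le_sum_abs _ _).trans ?_
  rw [sq, Finset.sum_mul_sum]
  refine Finset.sum_le_sum fun q _ => (Finset.abs_sum_le_sum_abs _ _).trans
    (Finset.sum_le_sum fun q' _ => ?_)
  split_ifs
  · rw [abs_mul]
  · rw [abs_zero]
    positivity

theorem wt_cont (t0 D : ℝ) : Continuous (wt t0 D) := by
  unfold wt
  fun_prop

theorem wt_pos (t0 D t : ℝ) : 0 < wt t0 D t := Real.exp_pos _

theorem wt_le_one (t0 D t : ℝ) : wt t0 D t ≤ 1 := by
  unfold wt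
  rw [Real.exp_le_one_iff]
  apply div_nonpos_of_nonpos_of_nonneg
  · have := sq_nonneg (t - t0)
    linarith
  · positivity

theorem tail_int (f : ℝ → ℂ) (t0 D V1 V2 R M : ℝ) (hD : 0 < D) (hR : 0 ≤ R) (hV : V1 ≤ V2)
    (h1 : V1 + R ≤ t0) (h2 : t0 + R ≤ V2) (hf : Continuous f) (hM : 0 ≤ M)
    (hfM : ∀ t, ‖f t‖ ≤ M * wt t0 D t) :
    ‖(∫ t in V1..V2, f t) - ∫ t : ℝ, f t‖ ≤ M * (4 * D) * Real.exp (-(R ^ 2 / (4 * D ^ 2))) := by
  have hwi : Integrable (fun t : ℝ => wt t0 D t) := SG.Deep.gauss_integrable D t0 hD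
  have hfi : Integrable f := (hwi.const_mul M).mono' hf.aestronglyMeasurable
    (Eventually.of_forall hfM)
  have hs : MeasurableSet (Set.Ioc V1 V2) := measurableSet_Ioc
  have e1 := integral_add_compl hs hfi
  rw [intervalIntegral.integral_of_le hV, ← e1]
  have e2 : (∫ t in Set.Ioc V1 V2, f t) - ((∫ t in Set.Ioc V1 V2, f t) +
      ∫ t in (Set.Ioc V1 V2)ᶜ, f t) = -∫ t in (Set.Ioc V1 V2)ᶜ, f t := by ring
  rw [e2, norm_neg]
  set s2 : ℝ := Real.sqrt 2 * D with hs2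
  have hs2' : 0 < s2 := by positivity
  have hs2q : s2 ^ 2 = 2 * D ^ 2 := by
    rw [hs2, mul_pow, Real.sq_sqrt (by norm_num)]
  set g : ℝ → ℝ := fun t => M * Real.exp (-(R ^ 2 / (4 * D ^ 2))) *
    Real.exp (-(t - t0) ^ 2 / (2 * s2 ^ 2)) with hg
  have hgi : Integrable g := (SG.Deep.gauss_integrable s2 t0 hs2').const_mul _
  have hg0 : ∀ t, 0 ≤ g t := fun t => by
    rw [hg]
    positivity
  have hb : ∀ t ∈ (Set.Ioc V1 V2)ᶜ, ‖f t‖ ≤ g t := by
    intro t ht
    have hRt : R ^ 2 ≤ (t - t0) ^ 2 := by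
      rw [Set.mem_compl_iff, Set.mem_Ioc, not_and_or, not_lt, not_le] at ht
      rcases ht with h | h
      · have : R ≤ t0 - t := by linarith
        nlinarith
      · have : R ≤ t - t0 := by linarith
        nlinarith
    refine (hfM t).trans ?_
    rw [hg]
    simp only
    rw [mul_assoc]
    apply mul_le_mul_of_nonneg_left _ hM
    unfold wt
    rw [← Real.exp_add]
    apply Real.exp_le_exp.2
    rw [hs2q]
    have e3 : -(t - t0) ^ 2 / (2 * D ^ 2) = -((t - t0) ^ 2 / (4 * D ^ 2)) +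
        -(t - t0) ^ 2 / (2 * (2 * D ^ 2)) := by
      field_simp
      ring
    rw [e3]
    have : R ^ 2 / (4 * D ^ 2) ≤ (t - t0) ^ 2 / (4 * D ^ 2) := by gcongr
    linarith
  calc ‖∫ t in (Set.Ioc V1 V2)ᶜ, f t‖ ≤ ∫ t in (Set.Ioc V1 V2)ᶜ, g t :=
        norm_integral_le_of_norm_le hgi.integrableOn ((ae_restrict_iff' hs.compl).2
          (Eventually.of_forall hb))
    _ ≤ ∫ t : ℝ, g t := setIntegral_le_integral hgi (Eventually.of_forall hg0)
    _ = M * Real.exp (-(R ^ 2 / (4 * D ^ 2))) * (s2 * Real.sqrt (2 * Real.pi)) := by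
        rw [hg, integral_const_mul, SG.Deep.gauss_integral s2 t0 hs2']
    _ ≤ M * Real.exp (-(R ^ 2 / (4 * D ^ 2))) * (4 * D) := by
        apply mul_le_mul_of_nonneg_left _ (by positivity)
        have h3 : Real.sqrt 2 * Real.sqrt (2 * Real.pi) ≤ 4 := by
          rw [← Real.sqrt_mul (by norm_num), Real.sqrt_le_left (by norm_num)]
          have := Real.pi_lt_d2
          linarith
        calc s2 * Real.sqrt (2 * Real.pi) = (Real.sqrt 2 * Real.sqrt (2 * Real.pi)) * D := by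
              rw [hs2]; ring
          _ ≤ 4 * D := by gcongr
    _ = M * (4 * D) * Real.exp (-(R ^ 2 / (4 * D ^ 2))) := by ring

theorem norm_osc (x : ℝ) : ‖cexp (-(I * (x : ℂ)))‖ = 1 := by
  have : -(I * (x : ℂ)) = ((-x : ℝ) : ℂ) * I := by push_cast; ring
  rw [this, Complex.norm_exp_ofReal_mul_I]

theorem core (G Z : ℝ → ℝ) (Cc lkk : ℕ → ℝ) (t0 D L V1 V2 M C1 c Λ ε1 : ℝ)
    (hG : Continuous G) (hG0 : ∀ t, 0 ≤ G t) (hGM : ∀ t, G t ≤ M) (hZ : Continuous Z)
    (hV : V1 ≤ V2) (hD : 0 < D) (hL : 1 ≤ L) (hlk0 : lkk 0 = 0)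
    (hlks : Summable fun n => |lkk n|) (hΛ : ∑' n, |lkk n| ≤ Λ) (hCM : ∀ n, |Cc n| ≤ M)
    (hJ : ∀ n : ℕ, 1 ≤ n → ‖(∫ t in V1..V2, ((wt t0 D t * G t : ℝ) : ℂ) *
      cexp (-(I * ((t * Real.log n : ℝ) : ℂ)))) -
      ((Real.sqrt (2 * Real.pi) * D * Cc n : ℝ) : ℂ)‖ ≤ ε1)
    (hZ' : ∀ t, V1 ≤ t → t ≤ V2 → |Z t - (c - (2 / L) *
      (∑' n : ℕ, (lkk n : ℂ) * cexp (-(I * ((t * Real.log n : ℝ) : ℂ)))).re)| ≤ C1 / L)
    (hc : 0 ≤ c) (hC1 : 0 ≤ C1) (hε : ε1 * (1 + Λ) ≤ D / L) :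
    |(∫ t in V1..V2, wt t0 D t * G t) - Real.sqrt (2 * Real.pi) * D * Cc 1| ≤ D / L ∧
    |(∫ t in V1..V2, wt t0 D t * G t * Z t) - Real.sqrt (2 * Real.pi) * D * (c * Cc 1 -
      (2 / L) * ∑' n : ℕ, lkk n * Cc n)| ≤ (3 * C1 + c + 3) * (D / L) * (1 + |Cc 1|) := by
  have hw := wt_cont t0 D
  set w : ℝ → ℝ := wt t0 D with hwdef
  have hw0 : ∀ t, 0 < w t := wt_pos t0 D
  have hw1 : ∀ t, w t ≤ 1 := wt_le_one t0 D
  set K : ℝ := Real.sqrt (2 * Real.pi) * D with hK
  have hsq : Real.sqrt (2 * Real.pi) ≤ 3 := by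
    rw [Real.sqrt_le_left (by norm_num)]
    have := Real.pi_lt_d2
    linarith
  have hK0 : 0 ≤ K := by positivity
  have hK3 : K ≤ 3 * D := by rw [hK]; gcongr
  have hL0 : 0 < L := by linarith
  have hM0 : 0 ≤ M := (hG0 0).trans (hGM 0)
  have hΛ0 : 0 ≤ Λ := (tsum_nonneg fun n => abs_nonneg _).trans hΛ
  have hε0 : 0 ≤ ε1 := (norm_nonneg _).trans (hJ 1 le_rfl)
  have hε1 : ε1 ≤ D / L := by nlinarith
  have hεΛ : Λ * ε1 ≤ D / L := by nlinarith
  set I0 : ℝ := ∫ t in V1..V2, w t * G t with hI0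
  -- first claim
  have hfirst : |I0 - K * Cc 1| ≤ ε1 := by
    have h1 := hJ 1 le_rfl
    have e1 : (∫ t in V1..V2, ((w t * G t : ℝ) : ℂ) *
        cexp (-(I * ((t * Real.log (1 : ℕ) : ℝ) : ℂ)))) = ((I0 : ℝ) : ℂ) := by
      rw [hI0, ← intervalIntegral.integral_ofReal]
      congr 1
      funext t
      simp
    rw [e1, ← Complex.ofReal_sub, Complex.norm_real, Real.norm_eq_abs] at h1
    exact h1
  refine ⟨hfirst.trans hε1, ?_⟩
  -- the series
  set S : ℝ → ℂ := fun t => ∑' n : ℕ, (lkk n : ℂ) * cexp (-(I * ((t * Real.log n : ℝ) : ℂ)))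
    with hS
  have hnorm : ∀ (n : ℕ) (t : ℝ), ‖(lkk n : ℂ) * cexp (-(I * ((t * Real.log n : ℝ) : ℂ)))‖ =
      |lkk n| := by
    intro n t
    rw [norm_mul, norm_osc, mul_one, Complex.norm_real, Real.norm_eq_abs]
  have hSsum : ∀ t : ℝ, Summable fun n : ℕ =>
      (lkk n : ℂ) * cexp (-(I * ((t * Real.log n : ℝ) : ℂ))) := by
    intro t
    apply Summable.of_norm
    simp only [hnorm]
    exact hlks
  have hScont : Continuous S := by
    rw [hS]
    apply continuous_tsum (u := fun n => |lkk n|) _ hlks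
    · intro n t
      rw [hnorm]
    · intro n
      fun_prop
  set J : ℕ → ℂ := fun n => ∫ t in V1..V2, ((w t * G t : ℝ) : ℂ) *
      cexp (-(I * ((t * Real.log n : ℝ) : ℂ))) with hJdef
  set A : ℂ := ∫ t in V1..V2, ((w t * G t : ℝ) : ℂ) * S t with hA
  have hhas : HasSum (fun n : ℕ => (lkk n : ℂ) * J n) A := by
    have h1 := intervalIntegral.hasSum_integral_of_dominated_convergence (a := V1) (b := V2)
      (μ := volume) (F := fun (n : ℕ) (t : ℝ) => ((w t * G t : ℝ) : ℂ) *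
        ((lkk n : ℂ) * cexp (-(I * ((t * Real.log n : ℝ) : ℂ)))))
      (f := fun t => ((w t * G t : ℝ) : ℂ) * S t) (fun n _ => M * |lkk n|)
      (fun n => by
        apply Continuous.aestronglyMeasurable
        fun_prop)
      (fun n => Eventually.of_forall fun t _ => by
        rw [norm_mul, hnorm, Complex.norm_real, Real.norm_eq_abs]
        apply mul_le_mul_of_nonneg_right _ (abs_nonneg _)
        rw [abs_of_nonneg (mul_nonneg (hw0 t).le (hG0 t))]
        calc w t * G t ≤ 1 * M := mul_le_mul (hw1 t) (hGM t) (hG0 t) zero_le_one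
          _ = M := one_mul M)
      (Eventually.of_forall fun t _ => hlks.mul_left M)
      (intervalIntegrable_const)
      (Eventually.of_forall fun t _ => (hSsum t).hasSum.mul_left _)
    have h2 : (fun n : ℕ => (lkk n : ℂ) * J n) = fun n : ℕ => ∫ t in V1..V2,
        ((w t * G t : ℝ) : ℂ) * ((lkk n : ℂ) * cexp (-(I * ((t * Real.log n : ℝ) : ℂ)))) := by
      funext n
      rw [hJdef]
      simp only
      rw [← intervalIntegral.integral_const_mul]
      congr 1
      funext t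
      ring
    rw [h2]
    exact h1
  have hCs : Summable fun n : ℕ => lkk n * Cc n := by
    apply Summable.of_norm_bounded (hlks.mul_right M)
    intro n
    rw [Real.norm_eq_abs, abs_mul]
    exact mul_le_mul_of_nonneg_left (hCM n) (abs_nonneg _)
  have hCs' : HasSum (fun n : ℕ => (lkk n : ℂ) * ((K * Cc n : ℝ) : ℂ))
      ((K * ∑' n : ℕ, lkk n * Cc n : ℝ) : ℂ) := by
    have h1 := (hCs.hasSum.mul_left K)
    have h2 := (Complex.hasSum_ofReal (f := fun n => K * (lkk n * Cc n))).2 h1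
    convert h2 using 1
    funext n
    push_cast
    ring
  have hAdiff : ‖A - ((K * ∑' n : ℕ, lkk n * Cc n : ℝ) : ℂ)‖ ≤ Λ * ε1 := by
    have h1 := hhas.sub hCs'
    rw [← h1.tsum_eq]
    have h2 : ∀ n : ℕ, ‖(lkk n : ℂ) * J n - (lkk n : ℂ) * ((K * Cc n : ℝ) : ℂ)‖ ≤ |lkk n| * ε1 := by
      intro n
      rw [← mul_sub, norm_mul, Complex.norm_real, Real.norm_eq_abs]
      rcases Nat.eq_zero_or_pos n with h | h
      · rw [h, hlk0, abs_zero, zero_mul, zero_mul]
      · exact mul_le_mul_of_nonneg_left (hJ n h) (abs_nonneg _)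
    calc ‖∑' n : ℕ, ((lkk n : ℂ) * J n - (lkk n : ℂ) * ((K * Cc n : ℝ) : ℂ))‖
        ≤ ∑' n : ℕ, |lkk n| * ε1 := tsum_of_norm_bounded (hlks.mul_right ε1).hasSum h2
      _ = (∑' n : ℕ, |lkk n|) * ε1 := tsum_mul_right
      _ ≤ Λ * ε1 := by gcongr
  have hre : |A.re - K * ∑' n : ℕ, lkk n * Cc n| ≤ Λ * ε1 := by
    have h1 := Complex.abs_re_le_norm (A - ((K * ∑' n : ℕ, lkk n * Cc n : ℝ) : ℂ))
    rw [Complex.sub_re, Complex.ofReal_re] at h1
    exact h1.trans hAdiff
  have hAre : A.re = ∫ t in V1..V2, w t * G t * (S t).re := by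
    have hint : IntervalIntegrable (fun t => ((w t * G t : ℝ) : ℂ) * S t) volume V1 V2 := by
      apply Continuous.intervalIntegrable
      fun_prop
    have h1 := Complex.reCLM.intervalIntegral_comp_comm hint
    rw [hA]
    have h2 : (∫ t in V1..V2, w t * G t * (S t).re) =
        ∫ t in V1..V2, Complex.reCLM (((w t * G t : ℝ) : ℂ) * S t) := by
      congr 1
      funext t
      rw [Complex.reCLM_apply, Complex.re_ofReal_mul]
    rw [h2, h1]
    rfl
  have hScontre : Continuous fun t => (S t).re := Complex.continuous_re.comp hScont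
  -- compare Z with the explicit formula
  have hcmp : |(∫ t in V1..V2, w t * G t * Z t) - (c * I0 - (2 / L) * A.re)| ≤ (C1 / L) * I0 := by
    have e1 : c * I0 - (2 / L) * A.re =
        ∫ t in V1..V2, w t * G t * (c - (2 / L) * (S t).re) := by
      rw [hAre, hI0, ← intervalIntegral.integral_const_mul, ← intervalIntegral.integral_const_mul,
        ← intervalIntegral.integral_sub]
      · congr 1
        funext t
        ring
      · apply Continuous.intervalIntegrable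
        fun_prop
      · apply Continuous.intervalIntegrable
        fun_prop
    rw [e1, ← intervalIntegral.integral_sub]
    · rw [← Real.norm_eq_abs]
      have h2 : (C1 / L) * I0 = ∫ t in V1..V2, (C1 / L) * (w t * G t) := by
        rw [hI0, intervalIntegral.integral_const_mul]
      rw [h2]
      apply intervalIntegral.norm_integral_le_of_norm_le hV
      · apply Eventually.of_forall
        intro t ht
        rw [Real.norm_eq_abs, ← mul_sub, abs_mul,
          abs_of_nonneg (mul_nonneg (hw0 t).le (hG0 t)), mul_comm (C1 / L)]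
        exact mul_le_mul_of_nonneg_left (hZ' t ht.1.le ht.2) (mul_nonneg (hw0 t).le (hG0 t))
      · apply Continuous.intervalIntegrable
        fun_prop
    · apply Continuous.intervalIntegrable
      fun_prop
    · apply Continuous.intervalIntegrable
      fun_prop
  have hI0' : I0 ≤ K * |Cc 1| + ε1 := by
    have h1 := (abs_le.1 hfirst).2
    have h2 : K * Cc 1 ≤ K * |Cc 1| := mul_le_mul_of_nonneg_left (le_abs_self _) hK0
    linarith
  set Sg : ℝ := ∑' n : ℕ, lkk n * Cc n with hSg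
  have htot : |(∫ t in V1..V2, w t * G t * Z t) - K * (c * Cc 1 - (2 / L) * Sg)| ≤
      (C1 / L) * I0 + c * ε1 + (2 / L) * (Λ * ε1) := by
    have e1 : (∫ t in V1..V2, w t * G t * Z t) - K * (c * Cc 1 - (2 / L) * Sg) =
        ((∫ t in V1..V2, w t * G t * Z t) - (c * I0 - (2 / L) * A.re)) +
        c * (I0 - K * Cc 1) + (-(2 / L)) * (A.re - K * Sg) := by ring
    rw [e1]
    refine (abs_add_three _ _ _).trans ?_
    apply add_le_add (add_le_add hcmp _) _
    · rw [abs_mul, abs_of_nonneg hc]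
      exact mul_le_mul_of_nonneg_left hfirst hc
    · rw [abs_mul, abs_neg, abs_of_pos (by positivity : 0 < 2 / L)]
      exact mul_le_mul_of_nonneg_left hre (by positivity)
  refine htot.trans ?_
  have hx : 0 ≤ |Cc 1| := abs_nonneg _
  set y : ℝ := D / L with hy
  have hy0 : 0 < y := by positivity
  have h1 : (C1 / L) * I0 ≤ C1 * (3 * y * |Cc 1| + y) := by
    calc (C1 / L) * I0 ≤ (C1 / L) * (K * |Cc 1| + ε1) := by gcongr
      _ ≤ (C1 / L) * (3 * D * |Cc 1| + y) := by gcongr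
      _ = C1 * (3 * y * |Cc 1| + y / L) := by rw [hy]; ring
      _ ≤ C1 * (3 * y * |Cc 1| + y) := by
          gcongr
          exact div_le_self hy0.le hL
  have h2 : c * ε1 ≤ c * y := by gcongr
  have h3 : (2 / L) * (Λ * ε1) ≤ 2 * y := by
    apply mul_le_mul _ hεΛ (by positivity) (by norm_num)
    exact div_le_self (by norm_num) hL
  have h4 : 0 ≤ C1 * y := by positivity
  have h5 : 0 ≤ c * y * |Cc 1| := by positivity
  have h6 : 0 ≤ y * |Cc 1| := by positivity
  have h7 : (3 * C1 + c + 3) * y * (1 + |Cc 1|) = (C1 * (3 * y * |Cc 1| + y) + c * y + 2 * y) +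
      2 * (C1 * y) + c * y * |Cc 1| + 3 * (y * |Cc 1|) + y := by ring
  rw [h7]
  linarith

theorem Zs_cont (A c T : ℝ) (hT : 1 ≤ T) : Continuous (Zs A c T) := by
  have hfin : (ZZ T).Finite := H370.zset_finite H370.good_zeta T (2 * T) hT
  have h : Zs A c T = fun t => ∑ s ∈ hfin.toFinset, (mu s : ℝ) *
      Real.exp (-(s.im - t) ^ 2 / 2) * gK A c (Real.log T * (s.im - t)) := by
    funext t
    exact finsum_mem_eq_finite_toFinset_sum _ hfin
  rw [h]
  have hg := gK_continuous A c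
  apply continuous_finsetSum
  intro s _
  fun_prop

theorem ev_all (κ C2 : ℝ) (hκ : 0 < κ) (hC2 : 0 < C2) : ∃ T0 : ℝ, 10 ≤ T0 ∧ ∀ T : ℝ, T0 ≤ T →
    Real.log T ≤ T / 40 ∧ 1 ≤ Real.log T ∧
    7 * T ^ 4 * Real.exp (-(T ^ κ / 1600)) * (1 + C2 * Real.exp (Real.log T ^ 4)) *
      Real.log T ≤ 1 := by
  have ev1 : ∀ᶠ T : ℝ in atTop, T ^ (5 : ℝ) * Real.exp (-(1 / 3200) * T ^ κ) <
      1 / (7 * (1 + C2)) := by
    have h := SG.Deep.tendsto_pow_exp 5 (1 / 3200) (2 * κ) (by norm_num) (by linarith)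
    have e : 2 * κ / 2 = κ := by ring
    rw [e] at h
    exact h.eventually_lt_const (by positivity)
  have ev2 : ∀ᶠ T : ℝ in atTop, (Real.log T) ^ 4 ≤ (1 / 3200) * T ^ κ := by
    have h := isLittleO_log_rpow_atTop (show 0 < κ / 4 by linarith)
    rw [Asymptotics.isLittleO_iff] at h
    filter_upwards [h (show (0 : ℝ) < 1 / 10 by norm_num), eventually_ge_atTop 1] with T hT h1
    rw [Real.norm_of_nonneg (Real.log_nonneg h1),
      Real.norm_of_nonneg (Real.rpow_nonneg (by linarith) _)] at hT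
    have h2 := pow_le_pow_left₀ (Real.log_nonneg h1) hT 4
    rw [mul_pow, ← Real.rpow_natCast (T ^ (κ / 4)), ← Real.rpow_mul (by linarith)] at h2
    have e : κ / 4 * ((4 : ℕ) : ℝ) = κ := by push_cast; ring
    rw [e] at h2
    have h3 : 0 ≤ T ^ κ := Real.rpow_nonneg (by linarith) _
    refine h2.trans ?_
    apply mul_le_mul_of_nonneg_right _ h3
    norm_num
  have ev6 : ∀ᶠ T : ℝ in atTop, Real.log T ≤ T / 40 := by
    have h := Real.isLittleO_log_id_atTop
    rw [Asymptotics.isLittleO_iff] at h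
    filter_upwards [h (show (0 : ℝ) < 1 / 40 by norm_num), eventually_ge_atTop 1] with T hT h1
    simp only [id] at hT
    rw [Real.norm_of_nonneg (Real.log_nonneg h1), Real.norm_of_nonneg (by linarith)] at hT
    linarith
  have ev8 : ∀ᶠ T : ℝ in atTop, 1 ≤ Real.log T := Real.tendsto_log_atTop.eventually_ge_atTop _
  obtain ⟨Tf, hTf⟩ := eventually_atTop.mp (ev1.and (ev2.and (ev6.and ev8)))
  refine ⟨max Tf 10, le_max_right _ _, fun T hT => ?_⟩
  obtain ⟨f1, f2, f3, f4⟩ := hTf T ((le_max_left _ _).trans hT)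
  have hT10 : 10 ≤ T := (le_max_right _ _).trans hT
  refine ⟨f3, f4, ?_⟩
  have h5 : T ^ (5 : ℝ) = T ^ 5 := by norm_cast
  rw [h5] at f1
  have h6 : Real.exp (-(T ^ κ / 1600)) * Real.exp (Real.log T ^ 4) ≤
      Real.exp (-(1 / 3200) * T ^ κ) := by
    rw [← Real.exp_add]
    apply Real.exp_le_exp.2
    linarith
  have h7 : 1 ≤ Real.exp (Real.log T ^ 4) := Real.one_le_exp (by positivity)
  have h8 : 1 + C2 * Real.exp (Real.log T ^ 4) ≤ (1 + C2) * Real.exp (Real.log T ^ 4) := by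
    linarith
  have h9 : Real.log T ≤ T := by linarith
  calc 7 * T ^ 4 * Real.exp (-(T ^ κ / 1600)) * (1 + C2 * Real.exp (Real.log T ^ 4)) * Real.log T
      ≤ 7 * T ^ 4 * Real.exp (-(T ^ κ / 1600)) * ((1 + C2) * Real.exp (Real.log T ^ 4)) * T := by
        gcongr
    _ = 7 * (1 + C2) * (T ^ 5 * (Real.exp (-(T ^ κ / 1600)) * Real.exp (Real.log T ^ 4))) := by
        ring
    _ ≤ 7 * (1 + C2) * (T ^ 5 * Real.exp (-(1 / 3200) * T ^ κ)) := by gcongr
    _ ≤ 7 * (1 + C2) * (1 / (7 * (1 + C2))) := by gcongr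
    _ = 1 := by field_simp

end MeanAux

open MeanAux

theorem MeanAux.ZEF' (hRH : RHs) (A c : ℝ) (hA : 0 < A) (hc : 0 < c) :
    ∃ C T0 : ℝ, 0 < C ∧ 10 ≤ T0 ∧
    ∀ T : ℝ, T0 ≤ T → ∀ t : ℝ, T + Real.log T ≤ t → t ≤ 2 * T - Real.log T →
    |Zs A c T t - (c - (2 / Real.log T) *
      (∑' n : ℕ, (lk A c T n : ℂ) * cexp (-(I * ((t * Real.log n : ℝ) : ℂ)))).re)| ≤
      C / Real.log T :=
  ZEF_of (EFX hRH) A c hc (gh_continuous A c) (fun v => gh_le A c v hc) (gK_approx A c hA hc)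
    (gh_main A c hA hc)

set_option maxHeartbeats 4000000 in
theorem MEAN (hRH : RHs) (P : Par) (B0 : ℕ) (hB : P.B = 2 * B0) (r : ℝ) (F : ℕ → ℝ) (A c : ℝ)
    (hA : 0 < A) (hc : 0 < c) : ∃ C T0 : ℝ, 0 < C ∧ 10 ≤ T0 ∧ ∀ T : ℝ, T0 ≤ T →
    ∀ t0 : ℝ, 11 / 10 * T ≤ t0 → t0 ≤ 19 / 10 * T →
    |(∫ t in (T + 2 * Real.log T)..(2 * T - 2 * Real.log T),
        wt t0 (dd P.κ T) t * ‖EE P B0 r F T t‖ ^ 2) -
      Real.sqrt (2 * Real.pi) * dd P.κ T * Cn P B0 r F T 1| ≤
      C * dd P.κ T / Real.log T * (1 + |Cn P B0 r F T 1|) ∧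
    |(∫ t in (T + 2 * Real.log T)..(2 * T - 2 * Real.log T),
        wt t0 (dd P.κ T) t * ‖EE P B0 r F T t‖ ^ 2 * Zs A c T t) -
      Real.sqrt (2 * Real.pi) * dd P.κ T * (c * Cn P B0 r F T 1 -
        (2 / Real.log T) * ∑' n : ℕ, lk A c T n * Cn P B0 r F T n)| ≤
      C * dd P.κ T / Real.log T * (1 + |Cn P B0 r F T 1|) := by
  obtain ⟨C1, T1, hC1, hT1, hzef⟩ := ZEF' hRH A c hA hc
  obtain ⟨C2, hC2, hlks⟩ := lk_summable A c hc
  obtain ⟨C3, T3, hC3, hT3, hfam⟩ := fam_facts P B0 hB r F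
  obtain ⟨T4, hT4, hev⟩ := ev_all P.κ C2 P.hκ hC2
  refine ⟨3 * C1 + c + 3, max T1 (max T3 T4), by positivity, hT1.trans (le_max_left _ _), ?_⟩
  intro T hT t0 ht1 ht2
  have hTT1 : T1 ≤ T := (le_max_left _ _).trans hT
  have hTT3 : T3 ≤ T := (le_max_left _ _).trans ((le_max_right _ _).trans hT)
  have hTT4 : T4 ≤ T := (le_max_right _ _).trans ((le_max_right _ _).trans hT)
  obtain ⟨hL40, hL1, hsmall⟩ := hev T hTT4
  have hT10 : 10 ≤ T := hT1.trans hTT1
  have hT0 : 0 < T := by linarith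
  obtain ⟨hfamA, -, hsum2, -⟩ := hfam T hTT3
  set κ := P.κ with hκ
  set D := dd κ T with hDdef
  have hD : 0 < D := Real.rpow_pos_of_pos hT0 _
  set L := Real.log T with hLdef
  set Se : ℝ := ∑ q ∈ prs P B0 T, |ae P r F T q.1 * ae P r F T q.2| with hSe
  have hSe0 : 0 ≤ Se := Finset.sum_nonneg fun _ _ => abs_nonneg _
  have hSeM : Se ^ 2 ≤ T ^ 4 := by
    calc Se ^ 2 ≤ (T ^ 2) ^ 2 := pow_le_pow_left₀ hSe0 hsum2 2
      _ = T ^ 4 := by ring
  set G : ℝ → ℝ := fun t => ‖EE P B0 r F T t‖ ^ 2 with hG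
  have hGcont : Continuous G := ((EE_cont P B0 r F T).norm).pow 2
  have hG0 : ∀ t, 0 ≤ G t := fun t => by rw [hG]; positivity
  have hGM : ∀ t, G t ≤ T ^ 4 := fun t =>
    (pow_le_pow_left₀ (norm_nonneg _) (EE_norm_le P B0 r F T t) 2).trans hSeM
  have hlk0 : lk A c T 0 = 0 := by
    unfold lk
    simp
  obtain ⟨hs1, hs2⟩ := hlks T hT10
  have hD2 : D ^ 2 = T ^ (2 - κ) := by
    rw [hDdef]
    unfold dd
    rw [← Real.rpow_natCast, ← Real.rpow_mul hT0.le]
    congr 1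
    push_cast
    ring
  have hTκ : T ^ κ * D ^ 2 = T ^ 2 := by
    rw [hD2, ← Real.rpow_add hT0]
    have : κ + (2 - κ) = ((2 : ℕ) : ℝ) := by push_cast; ring
    rw [this, Real.rpow_natCast]
  have hR : (T / 20) ^ 2 / (4 * D ^ 2) = T ^ κ / 1600 := by
    rw [div_pow, ← hTκ]
    field_simp
    norm_num
  have hκpos : 0 ≤ T ^ κ := Real.rpow_nonneg hT0.le _
  set X : ℝ := T ^ (1 - κ) with hX
  have hκ1 : κ < 1 / 2 := P.hκ1
  have hX1 : 1 ≤ X := Real.one_le_rpow (by linarith) (by linarith)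
  have hXD : D ^ 2 / (8 * X ^ 2) = T ^ κ / 8 := by
    have h1 : X ^ 2 * T ^ κ = D ^ 2 := by
      rw [hD2, hX, ← Real.rpow_natCast, ← Real.rpow_mul hT0.le, ← Real.rpow_add hT0]
      congr 1
      push_cast
      ring
    rw [← h1]
    have : X ≠ 0 := by positivity
    field_simp
  have hmain := core G (Zs A c T) (Cn P B0 r F T) (lk A c T) t0 D L (T + 2 * L) (2 * T - 2 * L)
    (T ^ 4) C1 c (C2 * Real.exp (L ^ 4)) (7 * D * T ^ 4 * Real.exp (-(T ^ κ / 1600)))
    hGcont hG0 hGM (Zs_cont A c T (by linarith)) (by linarith) hD hL1 hlk0 hs1 hs2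
    (fun n => (Cn_le P B0 r F T n).trans hSeM)
    (by
      intro n hn
      have hgmv := GMV (prs P B0 T) (fun q => ae P r F T q.1 * ae P r F T q.2)
        (fun q => nA q.2) (fun q => nA q.1) D t0 X n hD hX1
        (fun i hi => by
          have h1 := (Finset.mem_filter.1 hi).1
          exact (hfamA _ (Finset.mem_product.1 h1).2).1)
        (fun i hi => by
          have h1 := (Finset.mem_filter.1 hi).1
          exact (hfamA _ (Finset.mem_product.1 h1).1).1)
        (fun i hi j hj => by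
          have h1 := (Finset.mem_product.1 (Finset.mem_filter.1 hi).1).2
          have h2 := (Finset.mem_product.1 (Finset.mem_filter.1 hj).1).1
          have h3 := (hfamA _ h1).2.1
          have h4 := (hfamA _ h2).2.1
          calc ((nA i.2 : ℕ) : ℝ) * ((nA j.1 : ℕ) : ℝ) ≤ T ^ ((1 - κ) / 2) * T ^ ((1 - κ) / 2) := by
                gcongr
            _ = X := by
                rw [← Real.rpow_add hT0, hX]
                congr 1
                ring)
        hn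
      rw [hXD] at hgmv
      set f : ℝ → ℂ := fun t => ((wt t0 D t * G t : ℝ) : ℂ) *
        cexp (-(I * ((t * Real.log n : ℝ) : ℂ))) with hf
      have hfc : Continuous f := by
        have := wt_cont t0 D
        rw [hf]
        fun_prop
      have hfb : ∀ t, ‖f t‖ ≤ T ^ 4 * wt t0 D t := by
        intro t
        rw [hf]
        simp only
        rw [norm_mul, norm_osc, mul_one, Complex.norm_real, Real.norm_eq_abs,
          abs_of_nonneg (mul_nonneg (wt_pos t0 D t).le (hG0 t)), mul_comm]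
        exact mul_le_mul_of_nonneg_right (hGM t) (wt_pos t0 D t).le
      have htail := tail_int f t0 D (T + 2 * L) (2 * T - 2 * L) (T / 20) (T ^ 4) hD
        (by positivity) (by linarith) (by linarith) (by linarith) hfc (by positivity) hfb
      rw [hR] at htail
      have hgmv' : ‖(∫ t : ℝ, f t) - ((Real.sqrt (2 * Real.pi) * D * Cn P B0 r F T n : ℝ) : ℂ)‖ ≤
          Real.sqrt (2 * Real.pi) * D * Se ^ 2 * Real.exp (-(T ^ κ / 8)) := by
        have e1 : (∫ t : ℝ, f t) = ∫ t : ℝ, (wt t0 D t : ℂ) * ((‖∑ i ∈ prs P B0 T,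
            ((ae P r F T i.1 * ae P r F T i.2 : ℝ) : ℂ) *
            cexp (I * ((t * (Real.log (nA i.2) - Real.log (nA i.1)) : ℝ) : ℂ))‖ ^ 2 : ℝ) : ℂ) *
            cexp (-(I * ((t * Real.log n : ℝ) : ℂ))) := by
          congr 1
          funext t
          rw [hf]
          simp only
          rw [Complex.ofReal_mul]
          rfl
        rw [e1]
        exact hgmv
      have hsq : Real.sqrt (2 * Real.pi) ≤ 3 := by
        rw [Real.sqrt_le_left (by norm_num)]
        have := Real.pi_lt_d2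
        linarith
      have hexp : Real.exp (-(T ^ κ / 8)) ≤ Real.exp (-(T ^ κ / 1600)) := by
        apply Real.exp_le_exp.2
        linarith
      have hb1 : Real.sqrt (2 * Real.pi) * D * Se ^ 2 * Real.exp (-(T ^ κ / 8)) ≤
          3 * D * T ^ 4 * Real.exp (-(T ^ κ / 1600)) := by gcongr
      calc ‖(∫ t in (T + 2 * L)..(2 * T - 2 * L), f t) -
            ((Real.sqrt (2 * Real.pi) * D * Cn P B0 r F T n : ℝ) : ℂ)‖
          = ‖((∫ t in (T + 2 * L)..(2 * T - 2 * L), f t) - ∫ t : ℝ, f t) +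
            ((∫ t : ℝ, f t) - ((Real.sqrt (2 * Real.pi) * D * Cn P B0 r F T n : ℝ) : ℂ))‖ := by
            congr 1
            ring
        _ ≤ T ^ 4 * (4 * D) * Real.exp (-(T ^ κ / 1600)) +
            3 * D * T ^ 4 * Real.exp (-(T ^ κ / 1600)) :=
            (norm_add_le _ _).trans (add_le_add htail (hgmv'.trans hb1))
        _ = 7 * D * T ^ 4 * Real.exp (-(T ^ κ / 1600)) := by ring)
    (fun t ht1 ht2 => hzef T hTT1 t (by linarith) (by linarith))
    hc.le hC1.le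
    (by
      rw [le_div_iff₀ (by linarith)]
      calc 7 * D * T ^ 4 * Real.exp (-(T ^ κ / 1600)) * (1 + C2 * Real.exp (L ^ 4)) * L
          = D * (7 * T ^ 4 * Real.exp (-(T ^ κ / 1600)) * (1 + C2 * Real.exp (L ^ 4)) * L) := by
            ring
        _ ≤ D * 1 := by gcongr
        _ = D := mul_one D)
  obtain ⟨hm1, hm2⟩ := hmain
  have hL0 : 0 < L := by linarith
  constructor
  · refine hm1.trans ?_
    have h1 : D / L * 1 ≤ D / L * ((3 * C1 + c + 3) * (1 + |Cn P B0 r F T 1|)) := by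
      apply mul_le_mul_of_nonneg_left _ (by positivity)
      have : 0 ≤ |Cn P B0 r F T 1| := abs_nonneg _
      nlinarith
    calc D / L = D / L * 1 := (mul_one _).symm
      _ ≤ D / L * ((3 * C1 + c + 3) * (1 + |Cn P B0 r F T 1|)) := h1
      _ = (3 * C1 + c + 3) * D / L * (1 + |Cn P B0 r F T 1|) := by ring
  · refine hm2.trans (le_of_eq ?_)
    ring

end LG
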